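import Pool.Agent.Y78.SC.Final

set_option autoImplicit false

namespace Pool.Agent.Results.MP_6c3b49_co.GrowthRate

open Pool.Agent.Y78.SC

/-- For all `n ≥ 4` the maximum number `N(n)` of regular `n`-simplices of edge one that can be
packed in the unit cube satisfies
`(√2/4 · (1 - 2/√(n+1)))^n · n! / √(n+1) ≤ N(n) ≤ √2^n · n^n / √(n+1)`, and
`|log N(n) - n log n| ≤ 5 n`. -/
theorem result (n : ℕ) (hn : 4 ≤ n) :
    (√2 / 4 * (1 - 2 / √(n + 1))) ^ n * n.factorial / √(n + 1) ≤ (packingNumber n : ℝ) ∧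
    (packingNumber n : ℝ) ≤ (√2) ^ n * n ^ n / √(n + 1) ∧
    |Real.log (packingNumber n) - n * Real.log n| ≤ 5 * n :=
  ⟨le_packingNumber hn, packingNumber_le (by omega), abs_log_sub_le hn⟩

end Pool.Agent.Results.MP_6c3b49_co.GrowthRate
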